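import Pool.Agent.Helper39.HR.Stmts

/-!
# Hereditary independence ratio 1/3, module 5: the core
-/

namespace Pool.Agent.Helper6.HR

open Finset
open scoped Classical
open Pool.Agent.Helper39.HR

noncomputable section

theorem mu_nn {V : Type} [Fintype V] {ω : V → V → ℝ} {μ : V → ℝ} (h : Ker ω μ) (x : V) :
    0 ≤ μ x :=
  le_trans (Finset.sum_nonneg fun y _ => h.nn x y) (h.row x)

theorem fl_nn {V : Type} [Fintype V] {ω : V → V → ℝ} {μ : V → ℝ} (h : Ker ω μ)
    (A B : Finset V) : 0 ≤ fl ω A B :=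
  Finset.sum_nonneg fun x _ => Finset.sum_nonneg fun y _ => h.nn x y

theorem ms_nn {V : Type} [Fintype V] {ω : V → V → ℝ} {μ : V → ℝ} (h : Ker ω μ)
    (A : Finset V) : 0 ≤ ms μ A :=
  Finset.sum_nonneg fun x _ => mu_nn h x

theorem fl_le_ms {V : Type} [Fintype V] {ω : V → V → ℝ} {μ : V → ℝ} (h : Ker ω μ)
    (A B : Finset V) : fl ω A B ≤ ms μ A := by
  refine Finset.sum_le_sum fun x _ => le_trans ?_ (h.row x)
  exact Finset.sum_le_sum_of_subset_of_nonneg (Finset.subset_univ B) fun y _ _ => h.nn x y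

theorem fl_mono_left {V : Type} [Fintype V] {ω : V → V → ℝ} {μ : V → ℝ} (h : Ker ω μ)
    {A B : Finset V} (C : Finset V) (hAB : A ⊆ B) : fl ω A C ≤ fl ω B C :=
  Finset.sum_le_sum_of_subset_of_nonneg hAB fun x _ _ => Finset.sum_nonneg fun y _ => h.nn x y

theorem fl_comm {V : Type} [Fintype V] {ω : V → V → ℝ} {μ : V → ℝ} (h : Ker ω μ)
    (A B : Finset V) : fl ω A B = fl ω B A := by
  unfold fl
  rw [Finset.sum_comm]
  refine Finset.sum_congr rfl fun x _ => Finset.sum_congr rfl fun y _ => h.symm _ _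

/-- removing a vertex -/
theorem fl_erase {V : Type} [Fintype V] {ω : V → V → ℝ} {μ : V → ℝ} (h : Ker ω μ)
    {A : Finset V} {x : V} (hx : x ∈ A) :
    fl ω A A = fl ω (A.erase x) (A.erase x) + 2 * ∑ y ∈ A, ω x y := by
  have h1 : fl ω A A = fl ω (A.erase x) A + ∑ y ∈ A, ω x y := by
    unfold fl
    rw [← Finset.sum_erase_add _ _ hx]
  have h2 : fl ω (A.erase x) A = fl ω (A.erase x) (A.erase x) + ∑ y ∈ A.erase x, ω y x := by
    unfold fl
    rw [← Finset.sum_add_distrib]
    refine Finset.sum_congr rfl fun z _ => ?_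
    rw [← Finset.sum_erase_add _ _ hx]
  have h3 : ∑ y ∈ A, ω x y = ∑ y ∈ A.erase x, ω y x := by
    rw [← Finset.sum_erase_add _ _ hx, h.dg, add_zero]
    exact Finset.sum_congr rfl fun y _ => h.symm _ _
  rw [h1, h2, ← h3]
  ring

theorem sum_ind {V : Type} [Fintype V] (ω : V → V → ℝ) (A B : Finset V) :
    ∑ x, ∑ y, ω x y * ((if x ∈ A then (1 : ℝ) else 0) * (if y ∈ B then (1 : ℝ) else 0))
      = fl ω A B := by
  unfold fl
  rw [← Finset.sum_filter_add_sum_filter_not univ (fun x => x ∈ A)]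
  have hz : ∑ x ∈ univ.filter (fun x => ¬ x ∈ A),
      ∑ y, ω x y * ((if x ∈ A then (1 : ℝ) else 0) * (if y ∈ B then (1 : ℝ) else 0)) = 0 := by
    refine Finset.sum_eq_zero fun x hx => Finset.sum_eq_zero fun y _ => ?_
    rw [if_neg (Finset.mem_filter.1 hx).2]
    ring
  rw [hz, add_zero]
  have hf : univ.filter (fun x => x ∈ A) = A := by ext x; simp
  rw [hf]
  refine Finset.sum_congr rfl fun x hx => ?_
  rw [← Finset.sum_filter_add_sum_filter_not univ (fun y => y ∈ B)]
  have hz' : ∑ y ∈ univ.filter (fun y => ¬ y ∈ B),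
      ω x y * ((if x ∈ A then (1 : ℝ) else 0) * (if y ∈ B then (1 : ℝ) else 0)) = 0 := by
    refine Finset.sum_eq_zero fun y hy => ?_
    rw [if_neg (Finset.mem_filter.1 hy).2]
    ring
  have hf' : univ.filter (fun y => y ∈ B) = B := by ext y; simp
  rw [hz', add_zero, hf']
  refine Finset.sum_congr rfl fun y hy => ?_
  rw [if_pos hx, if_pos hy]
  ring

/-- the quadratic form of `1_C - t 1_A` -/
theorem qf_test {V : Type} [Fintype V] {ω : V → V → ℝ} {μ : V → ℝ} (hK' : Ker ω μ)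
    (A C : Finset V) (t : ℝ) :
    qf ω (fun x => (if x ∈ C then (1 : ℝ) else 0) - t * (if x ∈ A then (1 : ℝ) else 0))
      = fl ω C C - 2 * t * fl ω C A + t ^ 2 * fl ω A A := by
  have e : ∀ x y : V, ω x y *
      (((if x ∈ C then (1 : ℝ) else 0) - t * (if x ∈ A then (1 : ℝ) else 0)) *
        ((if y ∈ C then (1 : ℝ) else 0) - t * (if y ∈ A then (1 : ℝ) else 0)))
      = ω x y * ((if x ∈ C then (1 : ℝ) else 0) * (if y ∈ C then (1 : ℝ) else 0))
        - t * (ω x y * ((if x ∈ C then (1 : ℝ) else 0) * (if y ∈ A then (1 : ℝ) else 0)))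
        - t * (ω x y * ((if x ∈ A then (1 : ℝ) else 0) * (if y ∈ C then (1 : ℝ) else 0)))
        + t ^ 2 * (ω x y * ((if x ∈ A then (1 : ℝ) else 0) * (if y ∈ A then (1 : ℝ) else 0))) := by
    intro x y; ring
  have e2 : qf ω (fun x => (if x ∈ C then (1 : ℝ) else 0) - t * (if x ∈ A then (1 : ℝ) else 0))
      = ∑ x, ∑ y, (ω x y * ((if x ∈ C then (1 : ℝ) else 0) * (if y ∈ C then (1 : ℝ) else 0))
        - t * (ω x y * ((if x ∈ C then (1 : ℝ) else 0) * (if y ∈ A then (1 : ℝ) else 0)))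
        - t * (ω x y * ((if x ∈ A then (1 : ℝ) else 0) * (if y ∈ C then (1 : ℝ) else 0)))
        + t ^ 2 * (ω x y *
          ((if x ∈ A then (1 : ℝ) else 0) * (if y ∈ A then (1 : ℝ) else 0)))) :=
    Finset.sum_congr rfl fun x _ => Finset.sum_congr rfl fun y _ => e x y
  rw [e2]
  simp only [Finset.sum_add_distrib, Finset.sum_sub_distrib, ← Finset.mul_sum]
  have s1 := sum_ind ω C C
  have s2 := sum_ind ω C A
  have s3 := sum_ind ω A C
  have s4 := sum_ind ω A A
  rw [fl_comm hK' A C] at s3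
  rw [← s1, ← s2, ← s4]
  linear_combination (-t) * s3 + t * s2

theorem st_core : ST_CORE := by
  intro V _ ω μ D l hK hD hfl hl0 hl hsec
  have hex := (D.powerset).exists_max_image (fun A => fl ω A A - ms μ A / 60)
    ⟨D, Finset.mem_powerset_self D⟩
  obtain ⟨A, hA, hmax0⟩ := hex
  rw [Finset.mem_powerset] at hA
  have hmax : ∀ B ∈ D.powerset, fl ω B B - ms μ B / 60 ≤ fl ω A A - ms μ A / 60 := hmax0
  have hFD := hmax D (Finset.mem_powerset_self D)
  have hmsA0 := ms_nn hK A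
  have hflpos : 0 < fl ω A A := by nlinarith
  have hAge : ms μ A / 60 ≤ fl ω A A := by nlinarith
  have hmsA : 0 < ms μ A := lt_of_lt_of_le hflpos (fl_le_ms hK A A)
  have hdeg : ∀ x ∈ A, μ x / 120 ≤ ∑ y ∈ A, ω x y := by
    intro x hx
    have h1 := hmax (A.erase x)
      (Finset.mem_powerset.2 ((Finset.erase_subset x A).trans hA))
    have h2 := fl_erase hK hx
    have h3 : ms μ A = ms μ (A.erase x) + μ x := by
      unfold ms
      rw [Finset.sum_erase_add _ _ hx]
    linarith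
  refine ⟨A, hA, hmsA, fun C hC hCA => ?_⟩
  have hCflow : ms μ A / 4920 ≤ fl ω C A := by
    have h1 : ms μ C / 120 ≤ fl ω C A := by
      unfold ms fl
      rw [Finset.sum_div]
      exact Finset.sum_le_sum fun x hx => hdeg x (hC hx)
    linarith
  have hCA' : fl ω C A ≤ fl ω A A := fl_mono_left hK A hC
  have hCA0 : 0 ≤ fl ω C A := fl_nn hK C A
  have hAA : fl ω A A ≤ ms μ A := fl_le_ms hK A A
  set t : ℝ := fl ω C A / fl ω A A with ht
  have ht0 : 0 ≤ t := div_nonneg hCA0 hflpos.le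
  have ht1 : t ≤ 1 := (div_le_one hflpos).2 hCA'
  have htm : t * fl ω A A = fl ω C A := by rw [ht]; field_simp
  have key := hsec
    (fun x => (if x ∈ C then (1 : ℝ) else 0) - t * (if x ∈ A then (1 : ℝ) else 0))
    (by
      intro x
      by_cases hxC : x ∈ C
      · rw [if_pos hxC, if_pos (hC hxC), abs_le]; constructor <;> linarith
      · by_cases hxA : x ∈ A
        · rw [if_neg hxC, if_pos hxA, abs_le]; constructor <;> linarith
        · rw [if_neg hxC, if_neg hxA]; simp)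
    (by
      intro x hx
      have hxA : x ∉ A := fun h => hx (hA h)
      have hxC : x ∉ C := fun h => hxA (hC h)
      rw [if_neg hxC, if_neg hxA]; ring)
  rw [qf_test hK] at key
  have hmass : ∑ x, μ x *
      ((if x ∈ C then (1 : ℝ) else 0) - t * (if x ∈ A then (1 : ℝ) else 0)) ^ 2 ≤ ms μ A := by
    have hle : ∀ x, μ x *
        ((if x ∈ C then (1 : ℝ) else 0) - t * (if x ∈ A then (1 : ℝ) else 0)) ^ 2
        ≤ if x ∈ A then μ x else 0 := by
      intro x
      have hμ := mu_nn hK x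
      by_cases hxC : x ∈ C
      · rw [if_pos hxC, if_pos (hC hxC), if_pos (hC hxC)]
        have : (1 - t * 1) ^ 2 ≤ 1 := by nlinarith
        nlinarith
      · by_cases hxA : x ∈ A
        · rw [if_neg hxC, if_pos hxA, if_pos hxA]
          have : (0 - t * 1) ^ 2 ≤ 1 := by nlinarith
          nlinarith
        · rw [if_neg hxC, if_neg hxA, if_neg hxA]; simp
    refine le_trans (Finset.sum_le_sum fun x _ => hle x) ?_
    unfold ms
    rw [← Finset.sum_filter]
    have hf : univ.filter (fun x => x ∈ A) = A := by ext x; simp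
    rw [hf]
  have h1 : fl ω C C - 2 * t * fl ω C A + t ^ 2 * fl ω A A = fl ω C C - t * fl ω C A := by
    rw [← htm]; ring
  rw [h1] at key
  have h2 : l * ∑ x, μ x *
      ((if x ∈ C then (1 : ℝ) else 0) - t * (if x ∈ A then (1 : ℝ) else 0)) ^ 2
      ≤ (1 / 4920) ^ 2 / 2 * ms μ A := by
    refine le_trans (mul_le_mul_of_nonneg_left hmass hl0) ?_
    exact mul_le_mul_of_nonneg_right hl hmsA0
  have h3 : (1 / 4920) ^ 2 * ms μ A ≤ t * fl ω C A := by
    rw [ht, div_mul_eq_mul_div, le_div_iff₀ hflpos]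
    have h4 : (1 / 4920) ^ 2 * ms μ A * fl ω A A ≤ (1 / 4920) ^ 2 * ms μ A * ms μ A :=
      mul_le_mul_of_nonneg_left hAA (by positivity)
    have h5 : ms μ A / 4920 * (ms μ A / 4920) ≤ fl ω C A * fl ω C A :=
      mul_le_mul hCflow hCflow (by positivity) hCA0
    nlinarith
  linarith

end

end Pool.Agent.Helper6.HR
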